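import Mathlib
import Pool.Agent.Y563.CLT
import Pool.Agent.Y563.CLTProof

/-!
The continuous theory of the hyperfinite II₁ factor is not simple.
-/

namespace Pool.Agent.Results.MP_baa3fb_lc.NotSimple

open Pool.Agent.Y563.CLT

/-- There is a hyperfinite II₁ factor whose continuous theory is not simple. -/
theorem result : ∃ R : TracialVN, R.IsHyperfiniteIIOneFactor ∧ ¬ IsSimpleTheory R :=
  Pool.Agent.Y563.CLTProof.main

end Pool.Agent.Results.MP_baa3fb_lc.NotSimple
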